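import Pool.Agent.Run7.h88.LS.Cor

set_option autoImplicit false

/-!
# Local smoothing in the mean, with few random signs

Let `χ` be a Schwartz function on `ℝ^d` with compact support (for instance with
`∑_m χ(ξ - m) = 1`). For coefficients `a : ℤ^d → ℂ` let `u^a` be the solution of the wave equation
whose data have the Fourier transforms `(∑_m a_m χ(ξ - m)) u₀^(ξ)`, `(∑_m a_m χ(ξ - m)) u₁^(ξ)`;
`u₀, u₁` are arbitrary Schwartz data. The coefficients are random, and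

`E ‖u^a(t)‖_p^p ≤ C (‖u₀‖_{L^p_s}^p + ‖u₁‖_{L^p_{s-1}}^p)`,  `0 ≤ t ≤ 2`        (*)

is the estimate of Q1 in the mean (even at each fixed time) if `s = s_p - σ`. The range of `s` of Q1
is `s > s_p - 1/p = (d-1)/2 - d/p`, and Q1 is open for `2d/(d-1) ≤ p < 2(d+1)/(d-1)`, so `p < 4`.

Part 1. For every `0 < τ ≤ 1` there is a partition of `ℤ^d` into cells (it does not depend on `p`,
`s`, `χ`), of which only `O(R^(τ⌈d/2⌉))` meet `(-R, R)^d`, such that (*) holds with ONE random sign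
for each cell, for `2 ≤ p ≤ 4` and `s > d(1-τ)(1/2-1/p)` (if this number is less than `2`).
For `τ = 1` this is (*) for all `s > 0`, with `O(R^⌈d/2⌉)` random signs on `(-R, R)^d` instead of
the `(2R)^d` signs of the Wiener randomisation; for `dτ = 1 + 2/(p-2)` it is the full range of Q1
with `O(R^(τ⌈d/2⌉))` signs, the exponent is `1/2 + 1/(p-2)` for even `d`.

Part 2, the general principle. Let `θ < s`, `θ < 2`.
(a) Arbitrary random coefficients `a^ω`, `|a^ω_m| ≤ 1`: if for all `R` and all trigonometric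
polynomials `∑ c_m e(m·x)` with frequencies in `(-R, R)^d` the multiplied polynomials satisfy
`E ∫ |∑ a_m^ω c_m e(m·x)|^p dx ≤ (A R^θ)^p (∑ |c_m|²)^(p/2)` on the torus, then (*) with `C A^p`.
(b) One independent random sign on each cell of a partition of `ℤ^d`: it suffices that every cell
`Z` is a set of type `Λ(p)` with slowly growing constants: `‖f‖_{L^p} ≤ A R^θ ‖f‖_{L²}` on the torus
for all trigonometric polynomials `f` with frequencies in `Z ∩ (-R, R)^d`. Examples (not used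
below): the spheres `|m|² = N`, `N = 0, 1, 2, ...`, by the discrete restriction theorem of Bourgain
and Demeter, `p ≤ 2(d+1)/(d-1)`, all `θ > 0`: so the signs may be functions of `|m|²`.
(c) For `2 ≤ p ≤ 4` it suffices that every `v` has at most `A R^β` representations `v = m + m'` with
`m`, `m'` in the same cell and in `(-R, R)^d`, `β (1/2 - 1/p) ≤ θ`.

Proof. (a) In a unit ball the solution is a superposition of modulations of trigonometric
polynomials with coefficients whose `ℓ²` norm is at most the square root of the local energy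
(Bessel); the averaged bound on the torus, Tonelli, the weighted energy estimate, Young's
inequality, and summation over the dyadic shells in `L^p(Ω × ℝ^d)`; the cut-offs are compactly
supported in frequency, so general data are allowed. (b) Khintchine and Minkowski. (c) `L⁴` norms
and interpolation. Part 1: in the dyadic shell of size `2^k` take a prime `q` of size `2^(τk)` and
the cells on which `m_{2j+1} - m_{2j}²` is constant modulo `q` for all `j`: a quadratic congruence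
has at most two roots.

The building blocks for deterministic multipliers are from the starting tree (helper303 and
co-authors, see `SparseSpectra`).
-/

open MeasureTheory
open scoped ENNReal FourierTransform RealInnerProductSpace SchwartzMap

namespace Pool.Agent.Results.MP_ee74d2_an.RandomMultipliers

/-- `ℝ^d` -/
abbrev E (d : ℕ) : Type := EuclideanSpace ℝ (Fin d)

/-- The inverse Fourier transform `∫ exp(2πi x·ξ) F(ξ) dξ`. -/
noncomputable def inv {d : ℕ} (F : E d → ℂ) (x : E d) : ℂ :=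
  ∫ ξ : E d, Complex.exp (((2 * Real.pi * ⟪x, ξ⟫ : ℝ) : ℂ) * Complex.I) * F ξ

/-- The solution `u(t, x)` of the wave equation on `ℝ^d` whose data `u(0)`, `∂ₜu(0)` have the
Fourier transforms `F₀`, `F₁`: the inverse Fourier transform of
`cos(2πt|ξ|) F₀(ξ) + sin(2πt|ξ|)/(2π|ξ|) F₁(ξ)`. -/
noncomputable def wave {d : ℕ} (F₀ F₁ : E d → ℂ) (t : ℝ) (x : E d) : ℂ :=
  inv (fun ξ => ((Real.cos (2 * Real.pi * t * ‖ξ‖) : ℝ) : ℂ) * F₀ ξ +
    ((Real.sin (2 * Real.pi * t * ‖ξ‖) / (2 * Real.pi * ‖ξ‖) : ℝ) : ℂ) * F₁ ξ) x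

/-- The symbol `(1 + 4π²|ξ|²)^(a/2)` of `(I - Δ)^(a/2)`. -/
noncomputable def bessel {d : ℕ} (a : ℝ) (ξ : E d) : ℂ :=
  (((1 + 4 * Real.pi ^ 2 * ‖ξ‖ ^ 2) ^ (a / 2) : ℝ) : ℂ)

/-- `‖f‖^p` for the norm of `L^p_a`: the integral of `|(I - Δ)^(a/2) f|^p`. -/
noncomputable def sobolev {d : ℕ} (a p : ℝ) (f : 𝓢(E d, ℂ)) : ℝ≥0∞ :=
  ∫⁻ x : E d, ‖inv (fun ξ => bessel a ξ * 𝓕 (f : E d → ℂ) ξ) x‖ₑ ^ p

/-- The lattice point `m` as a point of `ℝ^d`. -/
noncomputable def pt {d : ℕ} (m : Fin d → ℤ) : E d := WithLp.toLp 2 fun i => (m i : ℝ)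

/-- The multiplier `∑_{m ∈ ℤ^d} a_m χ(ξ - m)`. -/
noncomputable def multiplier {d : ℕ} (χ : 𝓢(E d, ℂ)) (a : (Fin d → ℤ) → ℂ) (ξ : E d) : ℂ :=
  ∑' m : Fin d → ℤ, a m * χ (ξ - pt m)

/-- The half-open unit cube (the torus). -/
def unitCube (d : ℕ) : Set (E d) := {x : E d | ∀ i, x i ∈ Set.Ico (0 : ℝ) 1}

/-- `S` is a `Λ(p)` set with constant `Λ`: for all finite subsets `T` of `S` and all coefficients,
`∫_{[0,1)^d} |∑_{m ∈ T} c_m exp(2πi x·m)|^p dx ≤ Λ^p (∑_{m ∈ T} |c_m|²)^(p/2)`. -/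
def IsLambdaSet {d : ℕ} (p Λ : ℝ) (S : Set (Fin d → ℤ)) : Prop :=
  ∀ T : Finset (Fin d → ℤ), (T : Set (Fin d → ℤ)) ⊆ S → ∀ c : (Fin d → ℤ) → ℂ,
    ∫⁻ x in unitCube d, ‖∑ m ∈ T, c m *
      Complex.exp (((2 * Real.pi * ⟪x, pt m⟫ : ℝ) : ℂ) * Complex.I)‖ₑ ^ p ≤
      ENNReal.ofReal (Λ ^ p) * (∑ m ∈ T, ‖c m‖ₑ ^ (2 : ℝ)) ^ (p / 2)

/-- The random coefficients `a` satisfy on `(-R, R)^d`, in the mean, the bound
`E ∫_{[0,1)^d} |∑_{m ∈ T} a_m c_m exp(2πi x·m)|^p dx ≤ Λ^p (∑_{m ∈ T} |c_m|²)^(p/2)`. -/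
def MeanBound {d : ℕ} {Ω : Type} [MeasurableSpace Ω] (P : Measure Ω)
    (a : Ω → (Fin d → ℤ) → ℂ) (p Λ : ℝ) (R : ℕ) : Prop :=
  ∀ T : Finset (Fin d → ℤ), (∀ m ∈ T, ∀ i, |m i| < R) → ∀ c : (Fin d → ℤ) → ℂ,
    ∫⁻ ω, (∫⁻ x in unitCube d, ‖∑ m ∈ T, a ω m * c m *
      Complex.exp (((2 * Real.pi * ⟪x, pt m⟫ : ℝ) : ℂ) * Complex.I)‖ₑ ^ p) ∂P ≤
      ENNReal.ofReal (Λ ^ p) * (∑ m ∈ T, ‖c m‖ₑ ^ (2 : ℝ)) ^ (p / 2)

/-- `ε` is a family of independent fair coins. -/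
def FairCoins {Ω ι : Type} [MeasurableSpace Ω] (P : Measure Ω) (ε : ι → Ω → Bool) : Prop :=
  (∀ i, Measurable (ε i)) ∧ ProbabilityTheory.iIndepFun ε P ∧
    ∀ i, P {ω | ε i ω = true} = 1 / 2

/-- The random coefficients `a_m = ±1` with one sign for each cell. -/
def signs {d : ℕ} {Ω ι : Type} (ε : ι → Ω → Bool) (cell : (Fin d → ℤ) → ι) (ω : Ω)
    (m : Fin d → ℤ) : ℂ := if ε (cell m) ω then 1 else -1

/-- **The estimate of Q1 in the mean**, at each fixed time, for the random coefficients `a`: for all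
Schwartz functions `u₀`, `u₁` and `0 ≤ t ≤ 2` the solution `u^a` with the data
`(∑_m a_m χ(ξ - m)) u₀^(ξ)`, `(∑_m a_m χ(ξ - m)) u₁^(ξ)` satisfies
`E ‖u^a(t)‖_p^p ≤ C (‖u₀‖_{L^p_s}^p + ‖u₁‖_{L^p_{s-1}}^p)`. -/
def EstimateInMean {d : ℕ} {Ω : Type} [MeasurableSpace Ω] (χ : 𝓢(E d, ℂ)) (p s C : ℝ)
    (P : Measure Ω) (a : Ω → (Fin d → ℤ) → ℂ) : Prop :=
  ∀ (u₀ u₁ : 𝓢(E d, ℂ)) (t : ℝ), 0 ≤ t → t ≤ 2 →
    ∫⁻ ω, (∫⁻ x : E d, ‖wave (fun ξ => multiplier χ (a ω) ξ * 𝓕 (u₀ : E d → ℂ) ξ)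
      (fun ξ => multiplier χ (a ω) ξ * 𝓕 (u₁ : E d → ℂ) ξ) t x‖ₑ ^ p) ∂P ≤
      ENNReal.ofReal C * (sobolev s p u₀ + sobolev (s - 1) p u₁)

/-- **Local smoothing in the mean, with few random signs.** -/
theorem result :
    -- Part 1: an explicit partition into few cells
    (∀ d : ℕ, 1 ≤ d → ∀ τ : ℝ, 0 < τ → τ ≤ 1 → ∃ (ι : Type) (cell : (Fin d → ℤ) → ι),
      (∃ B : ℝ, ∀ R : ℕ, 1 ≤ R →
        (Set.ncard (cell '' {m : Fin d → ℤ | ∀ i, |m i| < R}) : ℝ) ≤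
          B * (R : ℝ) ^ (τ * (((d + 1) / 2 : ℕ) : ℝ))) ∧
      ∀ p s : ℝ, 2 ≤ p → p ≤ 4 → (d : ℝ) * (1 - τ) * (1 / 2 - 1 / p) < s →
        (d : ℝ) * (1 - τ) * (1 / 2 - 1 / p) < 2 →
        ∀ χ : 𝓢(E d, ℂ), HasCompactSupport (χ : E d → ℂ) → ∃ C : ℝ, 0 < C ∧
          ∀ (Ω : Type) [MeasurableSpace Ω] (P : Measure Ω) [IsProbabilityMeasure P]
            (ε : ι → Ω → Bool), FairCoins P ε → EstimateInMean χ p s C P (signs ε cell)) ∧
    -- Part 2: the general principle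
    ∀ (d : ℕ) (p θ s : ℝ), 2 ≤ p → 0 ≤ θ → θ < 2 → θ < s →
      ∀ χ : 𝓢(E d, ℂ), HasCompactSupport (χ : E d → ℂ) → ∃ C : ℝ, 0 < C ∧
      ∀ (Ω : Type) [MeasurableSpace Ω] (P : Measure Ω) [IsProbabilityMeasure P],
        -- (a) random coefficients
        (∀ a : Ω → (Fin d → ℤ) → ℂ, (∀ m, Measurable fun ω => a ω m) → (∀ ω m, ‖a ω m‖ ≤ 1) →
          ∀ A : ℝ, 0 ≤ A → (∀ R : ℕ, 1 ≤ R → MeanBound P a p (A * (R : ℝ) ^ θ) R) →
          EstimateInMean χ p s (C * A ^ p) P a) ∧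
        ∀ (ι : Type) (ε : ι → Ω → Bool), FairCoins P ε → ∀ cell : (Fin d → ℤ) → ι,
          -- (b) one sign for each cell, the cells are `Λ(p)` sets
          (∀ A : ℝ, 0 ≤ A → (∀ (i : ι) (R : ℕ), 1 ≤ R →
              IsLambdaSet p (A * (R : ℝ) ^ θ) {m | cell m = i ∧ ∀ j, |m j| < R}) →
            EstimateInMean χ p s (C * A ^ p) P (signs ε cell)) ∧
          -- (c) one sign for each cell, the cells have few representations `v = m + m'`
          (p ≤ 4 → ∀ β A : ℝ, β * (1 / 2 - 1 / p) ≤ θ → 0 ≤ A →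
            (∀ (i : ι) (R : ℕ), 1 ≤ R → ∀ v : Fin d → ℤ,
              (Set.ncard {m : Fin d → ℤ | cell m = i ∧ cell (v - m) = i ∧
                (∀ j, |m j| < R) ∧ ∀ j, |(v - m) j| < R} : ℝ) ≤ A * (R : ℝ) ^ β) →
            EstimateInMean χ p s (C * A ^ (p / 2 - 1)) P (signs ε cell)) := by
  refine ⟨fun d hd τ h0 h1 => ?_, fun d p θ s hp hθ hθ2 hs χ hχ => ?_⟩
  · exact Pool.Agent.Run7.h88.LS.mainA d hd τ h0 h1
  · obtain ⟨C, hC, h⟩ := Pool.Agent.Run7.h88.LS.main d p θ s hp hθ hθ2 hs χ hχ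
    exact ⟨C, hC, fun Ω _ P _ => ⟨fun a ha ha1 A hA hL => (h Ω P).1 a ha ha1 A hA hL,
      fun ι ε hε cell => (h Ω P).2 ι ε hε cell⟩⟩

end Pool.Agent.Results.MP_ee74d2_an.RandomMultipliers
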