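import Pool.Agent.Run7.h534.RS.Fin
import Pool.Agent.Run7.h534.RS.Dens

set_option autoImplicit false

/-!
# The estimate of Q1 for all data with spectrum near a random set, almost surely

Choose a random subset `S` of `ℤ^d`: the events `B_m = {m ∈ S}` are independent, with arbitrary
probabilities. The theorem: almost surely, for ALL Schwartz data whose Fourier transforms are
supported in `S + [-1/4, 1/4]^d` (the data may depend on `S`), and for `0 ≤ t ≤ 2`,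

`‖u(t)‖_p^p ≤ C (‖u₀‖_{L^p_s}^p + ‖u₁‖_{L^p_{s-1}}^p)`,                       (*)

the estimate of Q1 at each fixed time if `s = s_p - σ`. Q1 is open for
`2d/(d-1) ≤ p < 2(d+1)/(d-1)`, `d ≥ 3`, so `p < 4`, and asks for `s > s_p - 1/p = (d-1)/2 - d/p`.

Part 1. If `∑_{m ∈ (-R, R)^d} P(m ∈ S)² ≤ A R^β` for all `R ≥ 1`, then almost surely
(i) there is a `C` such that for all `R` and `v` there are at most `C (R^β + log R)` points `m` with
`m, v - m ∈ S ∩ (-R, R)^d`, and (ii) (*) holds for all `2 ≤ p ≤ 4` and `s > β (1/2 - 1/p)` (if this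
number is less than `2`), with `C` depending on `S, d, p, s` only.

Part 2. If `P(m ∈ S) ≤ A (1 + |m|)^(κ-d)`, `κ ≤ d` (so for equality and `κ > 0` the set `S` has
about `R^κ` points in `(-R, R)^d`), then almost surely (*) holds for `2 ≤ p ≤ 4` and all
`s > max(0, 2κ-d) (1/2 - 1/p)`. For `κ ≤ d/2` these are all `s > 0`. The full range of Q1 is reached
for `κ ≤ ((2d-1)p - 4d) / (2(p-2))`, a number which increases from `d/2` to `(3d-1)/4` on the open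
range of `p`. (Counting points only, as in the first example in `SparseSpectra`, gives
`s > κ(1/2 - 1/p)` and the full range of Q1 for `κ ≤ d - 1 - 2/(p-2)`, which is `0` for
`p = 2d/(d-1)`.)

Proof. `(i)` For fixed `v` the events `B_m ∩ B_{v-m}` for the pairs `{m, v-m}` are independent, so
`E 2^X = ∏ (1 + P(B_m) P(B_{v-m})) ≤ exp(A R^β)` for the number `X` of pairs; Markov's inequality,
the union bound over `O(R^d)` vectors `v`, and the lemma of Borel and Cantelli. `(ii)` By `(i)` the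
sets `S ∩ (-R, R)^d` are `Λ(p)` sets, `p ≤ 4`, with constants `C_δ R^(β(1/2-1/p) + δ)` (helper88's
lemma, `L⁴` norms and interpolation), and the theorem `SparseSpectra` of the starting tree
(helper303 and co-authors) applies. Part 2: the sum of the squares over the dyadic shells.
-/

open MeasureTheory
open scoped ENNReal FourierTransform RealInnerProductSpace SchwartzMap

namespace Pool.Agent.Results.MP_ee74d2_an.RandomSpectra

/-- `ℝ^d` -/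
abbrev E (d : ℕ) : Type := EuclideanSpace ℝ (Fin d)

/-- The inverse Fourier transform `∫ exp(2πi x·ξ) F(ξ) dξ`. -/
noncomputable def inv {d : ℕ} (F : E d → ℂ) (x : E d) : ℂ :=
  ∫ ξ : E d, Complex.exp (((2 * Real.pi * ⟪x, ξ⟫ : ℝ) : ℂ) * Complex.I) * F ξ

/-- The solution `u(t, x)` of the wave equation on `ℝ^d` with `u(0) = u₀`, `∂ₜu(0) = u₁`: the
inverse Fourier transform of `cos(2πt|ξ|) u₀^(ξ) + sin(2πt|ξ|)/(2π|ξ|) u₁^(ξ)`. -/
noncomputable def wave {d : ℕ} (u₀ u₁ : 𝓢(E d, ℂ)) (t : ℝ) (x : E d) : ℂ :=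
  inv (fun ξ => ((Real.cos (2 * Real.pi * t * ‖ξ‖) : ℝ) : ℂ) * 𝓕 (u₀ : E d → ℂ) ξ +
    ((Real.sin (2 * Real.pi * t * ‖ξ‖) / (2 * Real.pi * ‖ξ‖) : ℝ) : ℂ) * 𝓕 (u₁ : E d → ℂ) ξ) x

/-- The symbol `(1 + 4π²|ξ|²)^(a/2)` of `(I - Δ)^(a/2)`. -/
noncomputable def bessel {d : ℕ} (a : ℝ) (ξ : E d) : ℂ :=
  (((1 + 4 * Real.pi ^ 2 * ‖ξ‖ ^ 2) ^ (a / 2) : ℝ) : ℂ)

/-- `‖f‖^p` for the norm of `L^p_a`: the integral of `|(I - Δ)^(a/2) f|^p`. -/
noncomputable def sobolev {d : ℕ} (a p : ℝ) (f : 𝓢(E d, ℂ)) : ℝ≥0∞ :=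
  ∫⁻ x : E d, ‖inv (fun ξ => bessel a ξ * 𝓕 (f : E d → ℂ) ξ) x‖ₑ ^ p

/-- The Fourier transform of `f` vanishes outside `S + [-1/4, 1/4]^d`. -/
def SpectrumNear {d : ℕ} (S : Set (Fin d → ℤ)) (f : 𝓢(E d, ℂ)) : Prop :=
  ∀ ξ : E d, 𝓕 (f : E d → ℂ) ξ ≠ 0 → ∃ m ∈ S, ∀ i, |ξ i - m i| ≤ 1 / 4

/-- **The estimate of Q1, at each fixed time, for all data with spectrum near `S`**:
`‖u(t)‖_p^p ≤ C (‖u₀‖_{L^p_s}^p + ‖u₁‖_{L^p_{s-1}}^p)` for `0 ≤ t ≤ 2` and all Schwartz functions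
`u₀`, `u₁` whose Fourier transforms are supported in `S + [-1/4, 1/4]^d`. -/
def Estimate {d : ℕ} (S : Set (Fin d → ℤ)) (p s C : ℝ) : Prop :=
  ∀ u₀ u₁ : 𝓢(E d, ℂ), SpectrumNear S u₀ → SpectrumNear S u₁ → ∀ t : ℝ, 0 ≤ t → t ≤ 2 →
    ∫⁻ x : E d, ‖wave u₀ u₁ t x‖ₑ ^ p ≤
      ENNReal.ofReal C * (sobolev s p u₀ + sobolev (s - 1) p u₁)

/-- The lattice points of the open cube `(-R, R)^d`. -/
noncomputable def box (d R : ℕ) : Finset (Fin d → ℤ) :=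
  Fintype.piFinset fun _ => Finset.Ioo (-(R : ℤ)) R

/-- The random set `S = {m | ω ∈ B m}`. -/
def randomSet {d : ℕ} {Ω : Type} (B : (Fin d → ℤ) → Set Ω) (ω : Ω) : Set (Fin d → ℤ) :=
  {m | ω ∈ B m}

/-- **The estimate of Q1 for all data with spectrum near a random set, almost surely.** -/
theorem result (d : ℕ) (Ω : Type) [MeasurableSpace Ω] (P : Measure Ω) [IsProbabilityMeasure P]
    (B : (Fin d → ℤ) → Set Ω) (hB : ∀ m, MeasurableSet (B m))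
    (hind : ProbabilityTheory.iIndepSet B P) :
    -- Part 1: arbitrary probabilities
    (∀ A β : ℝ, 0 ≤ A → 0 ≤ β →
      (∀ R : ℕ, 1 ≤ R → ∑ m ∈ box d R, (P (B m)).toReal ^ 2 ≤ A * (R : ℝ) ^ β) →
      ∀ᵐ ω ∂P,
        -- (i) few representations
        (∃ C : ℝ, 0 ≤ C ∧ ∀ R : ℕ, 1 ≤ R → ∀ v : Fin d → ℤ,
          (Set.ncard {m : Fin d → ℤ | m ∈ randomSet B ω ∧ v - m ∈ randomSet B ω ∧
            (∀ j, |m j| < R) ∧ ∀ j, |(v - m) j| < R} : ℝ) ≤ C * ((R : ℝ) ^ β + Real.log R)) ∧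
        -- (ii) the estimate
        ∀ p s : ℝ, 2 ≤ p → p ≤ 4 → β * (1 / 2 - 1 / p) < s → β * (1 / 2 - 1 / p) < 2 →
          ∃ C : ℝ, 0 < C ∧ Estimate (randomSet B ω) p s C) ∧
    -- Part 2: densities `(1 + |m|)^(κ - d)`
    ∀ A κ : ℝ, κ ≤ d → (∀ m, (P (B m)).toReal ≤ A * (1 + ‖m‖) ^ (κ - d)) →
      ∀ᵐ ω ∂P, ∀ p s : ℝ, 2 ≤ p → p ≤ 4 → max 0 (2 * κ - d) * (1 / 2 - 1 / p) < s →
        max 0 (2 * κ - d) * (1 / 2 - 1 / p) < 2 →
          ∃ C : ℝ, 0 < C ∧ Estimate (randomSet B ω) p s C := by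
  have part1 : ∀ A β : ℝ, 0 ≤ A → 0 ≤ β →
      (∀ R : ℕ, 1 ≤ R → ∑ m ∈ box d R, (P (B m)).toReal ^ 2 ≤ A * (R : ℝ) ^ β) →
      ∀ᵐ ω ∂P,
        (∃ C : ℝ, 0 ≤ C ∧ ∀ R : ℕ, 1 ≤ R → ∀ v : Fin d → ℤ,
          (Set.ncard {m : Fin d → ℤ | m ∈ randomSet B ω ∧ v - m ∈ randomSet B ω ∧
            (∀ j, |m j| < R) ∧ ∀ j, |(v - m) j| < R} : ℝ) ≤ C * ((R : ℝ) ^ β + Real.log R)) ∧
        ∀ p s : ℝ, 2 ≤ p → p ≤ 4 → β * (1 / 2 - 1 / p) < s → β * (1 / 2 - 1 / p) < 2 →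
          ∃ C : ℝ, 0 < C ∧ Estimate (randomSet B ω) p s C := by
    intro A β hA hβ hsum
    filter_upwards [Pool.Agent.Run7.h534.RS.ae_reps P B hB hind A β hA hβ hsum] with ω hω
    obtain ⟨C, hC, hrep⟩ := hω
    refine ⟨⟨C, hC, fun R hR v => ?_⟩, fun p s hp hp4 hs h2 => ?_⟩
    · rw [Pool.Agent.Run7.h534.RS.ncard_reps]
      exact hrep R hR v
    · exact Pool.Agent.Run7.h534.RS.est_of_reps {m | ω ∈ B m} β C hβ hC hrep p s hp hp4 hs h2
  refine ⟨part1, ?_⟩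
  intro A κ hκ hP
  have hall : ∀ᵐ ω ∂P, ∀ n : ℕ, ∀ p s : ℝ, 2 ≤ p → p ≤ 4 →
      (max 0 (2 * κ - d) + 1 / ((n : ℝ) + 1)) * (1 / 2 - 1 / p) < s →
      (max 0 (2 * κ - d) + 1 / ((n : ℝ) + 1)) * (1 / 2 - 1 / p) < 2 →
          ∃ C : ℝ, 0 < C ∧ Estimate (randomSet B ω) p s C := by
    rw [ae_all_iff]
    intro n
    have hn : (0 : ℝ) < 1 / ((n : ℝ) + 1) := by positivity
    have hβ : 0 < max 0 (2 * κ - d) + 1 / ((n : ℝ) + 1) := by
      have := le_max_left 0 (2 * κ - d)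
      linarith
    have hβκ : 2 * κ - d ≤ max 0 (2 * κ - d) + 1 / ((n : ℝ) + 1) := by
      have := le_max_right 0 (2 * κ - d)
      linarith
    obtain ⟨A', hA', hsum⟩ := Pool.Agent.Run7.h534.RS.dens_sum κ _ hκ hβ hβκ
    have h1 := part1 (A ^ 2 * A') _ (by positivity) hβ.le (fun R hR => by
      calc ∑ m ∈ box d R, (P (B m)).toReal ^ 2
          ≤ ∑ m ∈ box d R, A ^ 2 * ((1 + ‖m‖) ^ (κ - d)) ^ 2 := by
            refine Finset.sum_le_sum fun m _ => ?_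
            rw [← mul_pow]
            exact pow_le_pow_left₀ ENNReal.toReal_nonneg (hP m) 2
        _ = A ^ 2 * ∑ m ∈ box d R, ((1 + ‖m‖) ^ (κ - d)) ^ 2 := by rw [Finset.mul_sum]
        _ ≤ A ^ 2 * (A' * (R : ℝ) ^ (max 0 (2 * κ - d) + 1 / ((n : ℝ) + 1))) :=
            mul_le_mul_of_nonneg_left (hsum R hR) (by positivity)
        _ = _ := by ring)
    filter_upwards [h1] with ω hω
    exact hω.2
  filter_upwards [hall] with ω hω
  intro p s hp hp4 hs h2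
  have hp0 : 0 < p := by linarith
  obtain ⟨b, hb⟩ : ∃ b : ℝ, b = max 0 (2 * κ - d) := ⟨_, rfl⟩
  obtain ⟨a, ha⟩ : ∃ a : ℝ, a = 1 / 2 - 1 / p := ⟨_, rfl⟩
  have ha1 : a ≤ 1 := by
    have : 0 < 1 / p := by positivity
    linarith
  have ha0 : 0 ≤ a := by
    rw [ha, sub_nonneg]
    exact one_div_le_one_div_of_le (by norm_num) hp
  rw [← ha, ← hb] at hs h2
  have hm : b * a < min s 2 := lt_min hs h2
  obtain ⟨n, hn⟩ := exists_nat_one_div_lt (sub_pos.2 hm)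
  have hn0 : (0 : ℝ) < 1 / ((n : ℝ) + 1) := by positivity
  have h3 : (b + 1 / ((n : ℝ) + 1)) * a < min s 2 := by
    have : 1 / ((n : ℝ) + 1) * a ≤ 1 / ((n : ℝ) + 1) := by nlinarith
    nlinarith
  have h4 := hω n p s hp hp4
  rw [← ha, ← hb] at h4
  exact h4 (h3.trans_le (min_le_left _ _)) (h3.trans_le (min_le_right _ _))

end Pool.Agent.Results.MP_ee74d2_an.RandomSpectra
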